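import Pool.Agent.H923R2.FZ.Stubs1

/-!
V0: existence of `v` in an algebra with free comparison.
-/

set_option autoImplicit false

noncomputable section

namespace Pool.Agent.H923R2.FZ.T_V0

open Pool.Agent.H923R2.FP Pool.Agent.H923R2.FZ

variable {A : Type} [CStarAlgebra A]

theorem cut_cont (s d : ℝ) : Continuous (cut s d) := by
  unfold cut
  fun_prop

theorem cut_mem (s d t : ℝ) : cut s d t ∈ Set.Icc (0 : ℝ) 1 := by
  unfold cut
  exact ⟨le_max_left _ _, max_le zero_le_one (min_le_left _ _)⟩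

theorem cut_one {s d t : ℝ} (hd : 0 < d) (h : s + d ≤ t) : cut s d t = 1 := by
  unfold cut
  have h1 : 1 ≤ (t - s) / d := by
    rw [le_div_iff₀ hd]
    linarith
  rw [min_eq_left h1]
  exact max_eq_right zero_le_one

theorem cut_zero {s d t : ℝ} (hd : 0 < d) (h : t ≤ s) : cut s d t = 0 := by
  unfold cut
  have h1 : (t - s) / d ≤ 0 := div_nonpos_of_nonpos_of_nonneg (by linarith) hd.le
  exact max_eq_left ((min_le_right _ _).trans h1)

theorem pc_cfc {a : A} (ha : PC a) {F : ℝ → ℝ} (hF : Continuous F)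
    (h01 : ∀ t ∈ Set.Icc (0 : ℝ) 1, F t ∈ Set.Icc (0 : ℝ) 1) : PC (cfc F a) := by
  refine ⟨cfc_predicate F a, ?_⟩
  rw [cfc_map_spectrum F a ha.1 hF.continuousOn]
  rintro _ ⟨t, ht, rfl⟩
  exact h01 t (ha.2 ht)

theorem tr_nonneg {τ : A →ₗ[ℂ] ℂ} (hτ : FTS τ) {a : A} (ha : PC a) {F : ℝ → ℝ}
    (hF : Continuous F) (h0 : ∀ t ∈ Set.Icc (0 : ℝ) 1, 0 ≤ F t) : 0 ≤ (τ (cfc F a)).re := by
  have hs : IsSelfAdjoint (cfc (fun t => Real.sqrt (F t)) a) := cfc_predicate _ a
  have hc : ContinuousOn (fun t => Real.sqrt (F t)) (spectrum ℝ a) :=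
    (Real.continuous_sqrt.comp hF).continuousOn
  have h1 : star (cfc (fun t => Real.sqrt (F t)) a) * cfc (fun t => Real.sqrt (F t)) a =
      cfc F a := by
    rw [hs.star_eq, ← cfc_mul _ _ a hc hc]
    exact cfc_congr fun t ht => Real.mul_self_sqrt (h0 t (ha.2 ht))
  rw [← h1]
  exact hτ.nonneg _

theorem tr_sq_le {τ : A →ₗ[ℂ] ℂ} (hτ : FTS τ) {a : A} (ha : PC a) {F : ℝ → ℝ}
    (hF : Continuous F) (h01 : ∀ t ∈ Set.Icc (0 : ℝ) 1, F t ∈ Set.Icc (0 : ℝ) 1) :
    (τ (cfc F a * cfc F a)).re ≤ (τ (cfc F a)).re := by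
  have h1 : cfc (fun t => F t - F t * F t) a = cfc F a - cfc F a * cfc F a := by
    rw [cfc_sub F (fun t => F t * F t) a hF.continuousOn (hF.mul hF).continuousOn,
      cfc_mul F F a hF.continuousOn hF.continuousOn]
  have h2 := tr_nonneg hτ ha (F := fun t => F t - F t * F t) (hF.sub (hF.mul hF))
    (fun t ht => by
      have h3 := h01 t ht
      nlinarith [h3.1, h3.2])
  rw [h1, map_sub, Complex.sub_re] at h2
  linarith

/-- V0 -/
theorem t_V0 (hFACT : S_FACT) : S_V0 := by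
  intro A _ τ hτ hFC c f δ hc hf hδ hδ1 hlt
  have hd2 : 0 < δ / 2 := by linarith
  have hd4 : 0 < δ / 4 := by linarith
  obtain ⟨g1, hg1⟩ : ∃ g1 : A, g1 = cfc (cut (δ / 4) (δ / 4)) c := ⟨_, rfl⟩
  obtain ⟨g, hg⟩ : ∃ g : A, g = cfc (cut (δ / 2) (δ / 2)) c := ⟨_, rfl⟩
  obtain ⟨k, hk⟩ : ∃ k : A, k = cfc (cut (1 - δ) (δ / 2)) f := ⟨_, rfl⟩
  have hk' : 1 - k = cfc (fun t => 1 - cut (1 - δ) (δ / 2) t) f := by
    rw [cfc_sub (fun _ => (1 : ℝ)) (cut (1 - δ) (δ / 2)) f continuousOn_const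
      (cut_cont _ _).continuousOn, cfc_const_one ℝ f hf.1, hk]
  have hcomp : Continuous (fun t => 1 - cut (1 - δ) (δ / 2) t) :=
    continuous_const.sub (cut_cont _ _)
  have hmem : ∀ t ∈ Set.Icc (0 : ℝ) 1, 1 - cut (1 - δ) (δ / 2) t ∈ Set.Icc (0 : ℝ) 1 := by
    intro t _
    have := cut_mem (1 - δ) (δ / 2) t
    exact ⟨by linarith [this.2], by linarith [this.1]⟩
  have pg1 : PC g1 := by
    rw [hg1]; exact pc_cfc hc (cut_cont _ _) fun t _ => cut_mem _ _ t
  have pg : PC g := by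
    rw [hg]; exact pc_cfc hc (cut_cont _ _) fun t _ => cut_mem _ _ t
  have pk : PC k := by
    rw [hk]; exact pc_cfc hf (cut_cont _ _) fun t _ => cut_mem _ _ t
  have pk' : PC (1 - k) := by
    rw [hk']; exact pc_cfc hf hcomp hmem
  have hsum : (τ (g1 * g1)).re + (τ ((1 - k) * (1 - k))).re < 1 := by
    have e1 : (τ (g1 * g1)).re ≤ (τ g1).re := by
      rw [hg1]; exact tr_sq_le hτ hc (cut_cont _ _) fun t _ => cut_mem _ _ t
    have e2 : (τ ((1 - k) * (1 - k))).re ≤ (τ (1 - k)).re := by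
      rw [hk']; exact tr_sq_le hτ hf hcomp hmem
    have e3 : (τ (1 - k)).re = 1 - (τ k).re := by
      rw [map_sub, hτ.one, Complex.sub_re, Complex.one_re]
    rw [← hg1, ← hk] at hlt
    linarith
  obtain ⟨U, hU⟩ := hFC g1 (1 - k) pg1 pk' hsum
  have hgg : g1 * g = g := by
    rw [hg1, hg, ← cfc_mul _ _ c (cut_cont _ _).continuousOn (cut_cont _ _).continuousOn]
    refine cfc_congr fun t _ => ?_
    rcases le_or_gt t (δ / 2) with h | h
    · change cut (δ / 4) (δ / 4) t * cut (δ / 2) (δ / 2) t = cut (δ / 2) (δ / 2) t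
      rw [cut_zero hd2 h, mul_zero]
    · change cut (δ / 4) (δ / 4) t * cut (δ / 2) (δ / 2) t = cut (δ / 2) (δ / 2) t
      rw [cut_one hd4 (by linarith), one_mul]
  obtain ⟨x, hx, hxk⟩ := hFACT A g g1 k U pg pg1 pk hgg hU
  -- norm of x
  have hxn : ‖x‖ ≤ 1 := by
    have h1 : ‖x‖ * ‖x‖ = ‖g‖ := by rw [← CStarRing.norm_star_mul_self, hx]
    have h2 : ‖g‖ ≤ 1 := by
      rw [hg]
      refine norm_cfc_le zero_le_one fun t _ => ?_
      have := cut_mem (δ / 2) (δ / 2) t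
      rw [Real.norm_of_nonneg this.1]
      exact this.2
    nlinarith [norm_nonneg x]
  obtain ⟨s, hs⟩ : ∃ s : A, s = cfc Real.sqrt c := ⟨_, rfl⟩
  have hsa : IsSelfAdjoint s := by rw [hs]; exact cfc_predicate _ c
  have hsn : ‖s‖ ≤ 1 := by
    rw [hs]
    refine norm_cfc_le zero_le_one fun t ht => ?_
    rw [Real.norm_of_nonneg (Real.sqrt_nonneg t)]
    exact Real.sqrt_le_one.2 (hc.2 ht).2
  refine ⟨x * s, ?_, ?_⟩
  · have h1 : star (x * s) * (x * s) = s * g * s := by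
      rw [star_mul, hsa.star_eq, ← hx]
      noncomm_ring
    have h2 : s * g * s - c = cfc (fun t => Real.sqrt t * cut (δ / 2) (δ / 2) t * Real.sqrt t - t) c := by
      have c1 : ContinuousOn Real.sqrt (spectrum ℝ c) := Real.continuous_sqrt.continuousOn
      have c2 : ContinuousOn (cut (δ / 2) (δ / 2)) (spectrum ℝ c) := (cut_cont _ _).continuousOn
      rw [cfc_sub (fun t => Real.sqrt t * cut (δ / 2) (δ / 2) t * Real.sqrt t) (fun t => t) c
        ((c1.mul c2).mul c1) continuousOn_id, cfc_id' ℝ c hc.1,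
        cfc_mul (fun t => Real.sqrt t * cut (δ / 2) (δ / 2) t) Real.sqrt c (c1.mul c2) c1,
        cfc_mul Real.sqrt (cut (δ / 2) (δ / 2)) c c1 c2, hs, hg]
    rw [h1, h2]
    refine norm_cfc_le hδ.le fun t ht => ?_
    have ht0 := (hc.2 ht).1
    have hm := cut_mem (δ / 2) (δ / 2) t
    have h3 : Real.sqrt t * cut (δ / 2) (δ / 2) t * Real.sqrt t - t =
        - (t * (1 - cut (δ / 2) (δ / 2) t)) := by
      have := Real.mul_self_sqrt ht0
      linear_combination (cut (δ / 2) (δ / 2) t) * this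
    rw [h3, norm_neg, Real.norm_of_nonneg (mul_nonneg ht0 (by linarith [hm.2]))]
    rcases le_or_gt t δ with h | h
    · nlinarith [hm.1, hm.2]
    · rw [cut_one hd2 (by linarith)]
      linarith
  · have h1 : f * (x * s) - x * s = (f * x - x) * s := by noncomm_ring
    have h2 : ‖f * x - x‖ ≤ δ := by
      refine le_of_forall_pos_le_add fun η hη => ?_
      obtain ⟨k1, hk1⟩ : ∃ k1 : A, k1 = cfc (cut (1 - δ - η) η) f := ⟨_, rfl⟩
      have hkk : k1 * k = k := by
        rw [hk1, hk, ← cfc_mul _ _ f (cut_cont _ _).continuousOn (cut_cont _ _).continuousOn]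
        refine cfc_congr fun t _ => ?_
        change cut (1 - δ - η) η t * cut (1 - δ) (δ / 2) t = cut (1 - δ) (δ / 2) t
        rcases le_or_gt t (1 - δ) with h | h
        · rw [cut_zero hd2 h, mul_zero]
        · rw [cut_one hη (by linarith), one_mul]
      have h3 := hxk k1 hkk
      have h4 : f * x - x = (f * k1 - k1) * x := by
        rw [sub_mul, mul_assoc, h3]
      have h5 : f * k1 - k1 = cfc (fun t => t * cut (1 - δ - η) η t - cut (1 - δ - η) η t) f := by
        have c2 : ContinuousOn (cut (1 - δ - η) η) (spectrum ℝ f) := (cut_cont _ _).continuousOn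
        rw [cfc_sub (fun t => t * cut (1 - δ - η) η t) (cut (1 - δ - η) η) f
          (continuousOn_id.mul c2) c2, cfc_mul (fun t => t) (cut (1 - δ - η) η) f continuousOn_id c2,
          cfc_id' ℝ f hf.1, hk1]
      have h6 : ‖f * k1 - k1‖ ≤ δ + η := by
        rw [h5]
        refine norm_cfc_le (by linarith) fun t ht => ?_
        have ht1 := (hf.2 ht).2
        have hm := cut_mem (1 - δ - η) η t
        have h7 : t * cut (1 - δ - η) η t - cut (1 - δ - η) η t =
            - ((1 - t) * cut (1 - δ - η) η t) := by ring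
        rw [h7, norm_neg, Real.norm_of_nonneg (mul_nonneg (by linarith) hm.1)]
        rcases le_or_gt t (1 - δ - η) with h | h
        · rw [cut_zero hη h, mul_zero]
          linarith
        · nlinarith [hm.1, hm.2]
      rw [h4]
      calc ‖(f * k1 - k1) * x‖ ≤ ‖f * k1 - k1‖ * ‖x‖ := norm_mul_le _ _
        _ ≤ (δ + η) * 1 := by gcongr
        _ = δ + η := mul_one _
    rw [h1]
    calc ‖(f * x - x) * s‖ ≤ ‖f * x - x‖ * ‖s‖ := norm_mul_le _ _
      _ ≤ δ * 1 := by gcongr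
      _ = δ := mul_one _

end Pool.Agent.H923R2.FZ.T_V0
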